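import Pool.Agent.Lib.helper31.NWC

set_option autoImplicit false

namespace Pool.Agent.Results.MP_4d0082_an.NoneButZero

open Metric Set

/-- the Hardy space, as the Hilbert space of square summable Taylor coefficient sequences -/
abbrev H2 : Type := lp (fun _ : ℕ => ℂ) 2

/-- the value at `z` of the analytic function with Taylor coefficients `f` -/
noncomputable def val (f : H2) (z : ℂ) : ℂ := ∑' n, f n * z ^ n

/-- `φ` is linear fractional on the disc -/
def LinFrac (φ : ℂ → ℂ) : Prop :=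
  ∃ a b c d : ℂ, a * d - b * c ≠ 0 ∧
    ∀ z ∈ ball (0 : ℂ) 1, c * z + d ≠ 0 ∧ φ z = (a * z + b) / (c * z + d)

theorem result (ψ φ : ℂ → ℂ) (hψ : DifferentiableOn ℂ ψ (ball 0 1))
    (hφ : DifferentiableOn ℂ φ (ball 0 1)) (hm : MapsTo φ (ball (0 : ℂ) 1) (ball (0 : ℂ) 1))
    (hfix : ∀ z ∈ ball (0 : ℂ) 1, φ z ≠ z) (hlf : ¬ LinFrac φ) (T : H2 →L[ℂ] H2)
    (hT : ∀ f, ∀ z ∈ ball (0 : ℂ) 1, val (T f) z = ψ z * val f (φ z)) :
    IsStarNormal T ↔ ∀ z ∈ ball (0 : ℂ) 1, ψ z = 0 := by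
  constructor
  · intro hn
    by_contra h0
    refine hlf (H31.H2.normal_moebius hψ hφ hm hT hn h0 fun ⟨w, hw⟩ => ?_)
    have h1 : w ∈ ball (0 : ℂ) 1 := hw 0 (mem_ball_self one_pos) ▸ hm (mem_ball_self one_pos)
    exact hfix w h1 (hw w h1)
  · intro h
    have : T = 0 := ContinuousLinearMap.ext fun f => H31.H2.ev_ext fun z hz =>
      (hT f z hz).trans (by simp [h z hz, H31.H2.ev])
    rw [this]
    infer_instance

end Pool.Agent.Results.MP_4d0082_an.NoneButZero
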